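import Pool.Agent.Y104.AbD

/-!
# The conjecture D for abelian varieties without stable isotropic subspaces, in any characteristic

Let `W` be a Weil cohomology theory on a class of smooth proper varieties over a field `k` of any
characteristic, and `G` a class of varieties, closed under products, with an action of a group `Γ`
on the cohomology which has the formal properties of a Galois action (the example: varieties over a
finitely generated subfield `F` of the algebraically closed field `k`, and the Galois group of `F`).

Let `S` be a set of abelian varieties `A` in `G`, with polarizations `ξ` defined over `F` (what is
used of them is listed in `IsAbelian`), such that the first cohomology `H¹(A)` does not contain a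
subspace different from `0` which is isotropic for the form given by the polarization and stable
under `Γ` and under the algebraic correspondences which preserve `H¹(A)` (for example, the
endomorphisms of `A`). Then the conjecture D holds for all products of members of `S`, in particular
for all powers of `A` (in all codimensions), and for all varieties dominated by them. More
generally, if `R` is any set of varieties in `G` such that D holds for all products of members of
`R`, then D holds for all products of members of `S ∪ R`.

When the condition is satisfied: by the theorems of Tate, Zarhin, Mori and Faltings the `l`-adic
representation `H¹(A)` is semisimple and its commutant is `E ⊗ ℚ_l`, where `E = End⁰(A)`; so the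
subspaces stable under `Γ` and `E` are the sums of the components of `H¹(A)` which belong to the
places over `l` of the centre of `E`, and a component is isotropic only if its place is not stable
under the Rosati involution. So the condition is satisfied for all `l` if `A` has no factor of type
IV in the classification of Albert, and for all `l` such that no place over `l` of the maximal
totally real subfields of the centre splits in the centre in general. For finite fields the last
case is the theorem of Clozel (1999), whose proof uses that the Frobenius tori are commutative; here
the field and the monodromy group are arbitrary. No positivity (no conjecture of Hodge type) and no
form of the Tate conjecture for cycles is used.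

The proof: the numerically trivial algebraic classes on the powers of `A` give multilinear forms
on `H¹(A)` all of whose full contractions with the class of the Poincare bundle vanish, so they
are unstable for the group of the symplectic similitudes. As in the theory of Kempf there is an
optimal weighted flag of `H¹(A)`, defined over the coefficient field and stable under `Γ` and under
the correspondences; if there were numerically trivial classes other than `0` this flag would
contain a stable isotropic subspace. The lemma that the class of the Poincare bundle is the inverse
of the form given by the polarization is due to helper154.
-/

universe u v w

namespace Pool.Agent.Results.MP_f569db_ag.AbelianVarieties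

open Pool.Agent.H914 Pool.Agent.TH125.Gal Pool.Agent.Y104.Geo

/-- **The conjecture D for products of abelian varieties without stable isotropic subspaces.** -/
theorem result {k : Type u} [Field k] {𝒱 : VarClass k} {ops : CycleOps 𝒱}
    (W : WeilCohomology.{u, v} ops) {Γ : Type w} [Group Γ] (χ : Γ →* W.Kˣ) (G : Set (GVar W Γ))
    (hG : GaloisClass χ G) (S R : Set (GVar W Γ)) (hSG : S ⊆ G) (hRG : R ⊆ G)
    (hS : ∀ A ∈ S, ∃ ξ, IsAbelian χ A ξ ∧ NoStableIsotropicOne A ξ)
    (hR : ∀ Y, IsProductOf (GVar.X '' R) Y → HomEqNum W Y) (Y : 𝒱.Obj)
    (hY : IsProductOf (GVar.X '' (S ∪ R)) Y) :
    HomEqNum W Y ∧ ∀ Y', Dominates W Y Y' → HomEqNum W Y' :=
  have h := homEqNum_abelian hG hSG hRG hS hR hY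
  ⟨h, fun _ hd => h.image hd⟩

end Pool.Agent.Results.MP_f569db_ag.AbelianVarieties
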