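import Pool.Agent.Y104.Fin6

/-!
# The conjecture D: the determinant criterion

Let `W` be a Weil cohomology theory on a class of smooth proper varieties over a field `k` of any
characteristic, and `G` a class of varieties, closed under products, with an action of a group `Γ`
on the cohomology which has the formal properties of a Galois action (the example: `l`-adic
cohomology, varieties over a finitely generated field, and its Galois group).

Let `S` and `S'` be sets of varieties in `G`:

* every `X` in `S` satisfies the conjecture D, and the sign operator on the transcendental
  cohomology `T(X)` (the orthogonal complement of all algebraic classes) is algebraic; let
  `U X = T(X)`, with the form `tr (a b)`;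
* every `X` in `S'` is an abelian variety with a polarization `ξ` (what is used is listed in
  `IsAbelian`); let `U X = H¹(X)`, with the form `tr (a b ξ ^ (dim X - 1))`.

Assume that `U X` is semisimple under `Γ` and the algebraic correspondences which preserve `U X`.
(For abelian varieties and `l`-adic cohomology over a finitely generated field this is a theorem of
Tate, Zarhin, Mori and Faltings.) Consider, for finitely many different members `X j` of `S ∪ S'`,
flags `V j 0 ⊇ V j 1 ⊇ ⋯` of homogeneous isotropic subspaces of `U (X j)` which are stable under `Γ`
and under these correspondences, and the characters `∏ det (V j i) ^ e i` (`e i > 0`), normalized by a
power of the Tate twist to have weight `0`.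

The theorem: if none of these characters, except for the flag `0`, has all its values roots of
unity, then the conjecture D holds for all products of members of `S ∪ S'` (in particular for all
powers of one `X`, in all codimensions) and for all varieties covered by them.

If the `U X` have no stable isotropic subspaces at all the condition is empty; this case is
`StableIsotropic` and `AbelianVarieties`. Here the question is what happens if there are such
subspaces, as for the `l`-adic cohomology at the `l` which split in a field of complex
multiplication. The typical case: `U X = V ⊕ V'`, where `V` and `V'` are irreducible, not
isomorphic, isotropic and dual to each other. Then the theorem says that D holds for all powers of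
`X` if the normalized determinant of `V` is not a character of finite order; if it is one, the
determinants are exceptional Tate classes on a power of `X` (Weil classes). So numerically trivial
cycles with a class different from `0` are possible only if there are Weil classes.

For a simple abelian variety `A` let `Z` be the centre of `End⁰(A)` and let `ε` be the normalized
determinant of `H¹(A)` over `Z ⊗ ℚ_l`. The stable subspaces of `H¹(A)` are the sums of the
components `H_λ` which belong to the places `λ` of `Z` over `l`, and such a sum is isotropic if it
does not contain two conjugate components. So the condition says that `∏ N (ε_λ) ^ (m_λ)` is not of
finite order for any integers `m_λ ≥ 0`, not all zero, with `m_λ m_(conj λ) = 0`. If `Z` is an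
imaginary quadratic field, it is satisfied for all `l` if `A` is not of Weil type, that is, if `ε`
is of infinite order. For finite fields conditions on the relations between the
eigenvalues of Frobenius are known to imply D (Clozel 1999; helper146, `StableRelations`); here the
field and the Galois group are arbitrary, and nothing is assumed on positivity (no conjecture of
Hodge type) and on Tate classes.

The proof: the numerically trivial classes on products of the `X` give tensors on the spaces `U X`,
all of whose full contractions vanish. By the theory of Hilbert, Mumford, Kempf and Rousseau, in a
version for the product of orthogonal and symplectic groups and for the operators given by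
correspondences, they have an optimal weighted flag; it is defined over the coefficient field and
stable under `Γ`. Let `g` be an element of `Γ` (normalized to be an isometry). The tensors are
invariant under a power of `g`, and so one can move the weights of the flag in the direction of
the valuations `v (a)` of the eigenvalues `a` of `g` (for every homomorphism `v` from the
multiplicative group to the rational numbers). As the flag is optimal this gives the relation
`∑ (ω i) v (det (g | gr i)) = 0` between the weights `ω i` of the flag, for all `v`. The rational
solutions of these relations are dense in the real ones, so there are positive integers `e i` with
`∏ det (g | V j i) ^ (e i)` a root of unity, for all `g`. (The lemma that the class of the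
Poincare bundle is the inverse of the form given by the polarization is due to helper154.)
-/

universe u v w

namespace Pool.Agent.Results.MP_f569db_ag.DeterminantCriterion

open Pool.Agent.H914 Pool.Agent.TH125.Gal Pool.Agent.Y104.Geo

/-- **The determinant criterion.** -/
theorem result {k : Type u} [Field k] {𝒱 : VarClass k} {ops : CycleOps 𝒱}
    (W : WeilCohomology.{u, v} ops) {Γ : Type w} [Group Γ] (χ : Γ →* W.Kˣ) (G : Set (GVar W Γ))
    (hG : GaloisClass χ G) (S S' : Set (GVar W Γ)) (hSG : S ∪ S' ⊆ G)
    (ξ : ∀ A : GVar W Γ, W.H A.X)
    (hS : ∀ X ∈ S, HomEqNum W X.X ∧ SignIsAlgebraic W X.X ∧
      SemisimpleIn (transcendental W X.X) X.act (CorrOps W X.X))
    (hS' : ∀ A ∈ S', IsAbelian χ A (ξ A) ∧ SemisimpleIn (W.gr A.X 1) A.act (CorrOps W A.X))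
    (hF : NoTorsion χ S S' ξ) (Y : 𝒱.Obj) (hY : IsProductOf (GVar.X '' (S ∪ S')) Y) :
    HomEqNum W Y ∧ ∀ Y', Covers W Y Y' → HomEqNum W Y' :=
  have h := homEqNum_mixed hG hSG hS hS' hF hY
  ⟨h, fun _ hd => homEqNum_of_covers h hd⟩

end Pool.Agent.Results.MP_f569db_ag.DeterminantCriterion
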