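import Pool.Agent.Y137.DU.Main

/-!
# Homological and numerical equivalence on the products of abelian varieties of dimension at most five,
and of products of elliptic curves and abelian surfaces, with arbitrary varieties

Let `k` be an algebraic closure of the field with `p` elements, and let `Y` be an abelian variety over
`k`, coming from the field with `q = p ^ a` elements (`RedAV`: each abelian variety is isogenous to the
reduction of an abelian variety of CM type, by Honda and Tate). Suppose (`IsGoodAVS`) that

* the dimension of `Y` is at most five, or
* `Y` is isogenous to a product of abelian varieties of dimension at most three, such that any two of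
  them which are nonisogenous, not supersingular, of dimension three, and whose CM fields have the same
  Galois closure, have CM fields that are Galois over `ℚ`, and of a supersingular abelian variety of any
  dimension. So `Y` may be **any product of elliptic curves and abelian surfaces**, of any dimension and
  with any Newton polygon.

Let `U` be **any** smooth projective variety, of dimension `d`, over the field with `q` elements. We only
assume that the eigenvalues `α` of the Frobenius endomorphism on the cohomology of `U` are independent
of `Y` (`AreIndependent`): for some `N > 0` the intersection of the field `ℚ(α ^ N)` with the compositum of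
the Galois closures of the CM fields of the factors of `Y` is totally real; and that no eigenvalue in odd
degree is of supersingular type (`HasNoOddSupersingular`), for example that the odd cohomology of `U`
vanishes. Nothing else is assumed on `U`: no semisimplicity, no form of the Tate conjecture or of the
standard conjectures.
The cohomology is any Weil cohomology, with coefficients extended to an algebraically closed field `Ω`,
for instance `ℓ`-adic cohomology for every `ℓ ≠ p`, or crystalline cohomology.

**Theorem.**
1. (Künneth formula for cycles.) The class of each algebraic cycle on `Y × U` is a linear combination
   (with coefficients in `Ω`) of classes of cycles `f × w`, where `f` is a cycle on `Y` and `w` a cycle on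
   `U`.
2. For each `c`, **numerical and homological equivalence coincide for the cycles of codimension `c` on
   `Y × U` if and only if they coincide on `U` for the cycles of the codimensions `c - i`,
   `0 ≤ i ≤ dim Y`**.

So the standard conjecture D is true for `Y × U` (all codimensions) if it is true for `U`, for instance
for all surfaces `U` as above, and it is true for the cycles of codimension at most two on `Y × U` if it
is true for the cycles of codimension two on `U`. If `U` is a point it is the conjecture D for `Y` and
every Weil cohomology (for abelian varieties over finite fields Clozel has proved it for infinitely many
`ℓ`).

In the Lean statement `M b = H^b(U)`, and the part `H^k(Y) ⊗ H^b(U)` of the cohomology of `Y × U` is the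
space of the alternating maps in `k` variables from the Tate module of `Y` to `M b`. The structure
`IsCycleTheory` lists what is used on algebraic cycles, all of which is known: products, push-forward
along `Y × U → U`, intersection numbers are integers, the action of Frobenius, and that the Tate classes
on `Y` which belong to the system `AlgS` are linear combinations of classes of cycles. This system is
generated by the Tate classes of degree two, by the reductions of the split Weil classes on abelian
fourfolds and sixfolds of CM type, and by the reductions of the Hodge classes of degree four on products
of elliptic curves and abelian surfaces of CM type; these classes are algebraic by theorems of Tate,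
Markman and Ramón Marí.

Idea of the proof: a cycle on `Y × U` is a Tate class over a finite extension of the ground field. If
`b α` is a power of `q` up to a root of unity, `b` a product of Frobenius eigenvalues of `Y`, and if `τ`
fixes `α` up to a root of unity and induces the complex conjugation on the CM fields of `Y` then `b` and
its conjugate agree up to a root of unity, so that `b` itself is of Tate type. So the coefficient of the
cycle at each monomial in the eigenforms of `Y` is, up to a factor, the push-forward of its product with a
Tate class `f` on `Y`, the contraction of the volume form with the dual monomial. By the theorem on the
Tate classes of `Y` (which says that they all belong to `AlgS`) `f` is a combination of cycles.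
-/

set_option autoImplicit false

namespace Pool.Agent.Results.MP_f569db_ag.FiveAndSurfacesTimesVarieties

open Module Pool.Agent.W495.TA Pool.Agent.Y137.GN Pool.Agent.Y137.DU

/-- **Homological and numerical equivalence on `Y × U`**, `Y` an abelian variety of dimension at most
five, or a product of elliptic curves and abelian surfaces, over an algebraic closure of the field with
`p` elements, and `U` an arbitrary variety with independent Frobenius eigenvalues. -/
theorem result (p : ℕ) [Fact p.Prime] (ν : PadicAlgCl p ≃+* ℂ) (Ω : Type) [Field Ω]
    [IsAlgClosed Ω] [CharZero Ω] (Y : RedAV p ν) (hY : IsGoodAVS Y) (M : ℕ → Type)
    [∀ b, AddCommGroup (M b)] [∀ b, Module Ω (M b)] [∀ b, FiniteDimensional Ω (M b)] (d : ℕ)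
    (φ : ∀ b, M b →ₗ[Ω] M b) (B : ∀ b b', M b →ₗ[Ω] M b' →ₗ[Ω] Ω)
    (ZY : ∀ k : ℕ, Set ((TM Ω Y) [⋀^Fin k]→ₗ[Ω] Ω)) (ZU : ∀ b, AddSubgroup (M b))
    (Z : ∀ k b : ℕ, Set ((TM Ω Y) [⋀^Fin k]→ₗ[Ω] M b)) (hZ : IsCycleTheory Y d φ B ZY ZU Z)
    (hφ : AreIndependent Y φ) (hodd : HasNoOddSupersingular ((p : Ω) ^ Y.a) φ) :
    KunnethFormula Y ZY ZU Z ∧ ∀ c, ConjectureDTimes Y d B Z c ↔
      ∀ i, i ≤ c → 2 * i ≤ finrank ℚ Y.X.H1 → ConjectureD d B ZU (c - i) :=
  ⟨fun _ _ _ hkb _ hx => combination_of_mem (kunneth hY hZ hφ hodd hkb hx),
    fun c => conjectureD_iff hY hZ hφ hodd c⟩

end Pool.Agent.Results.MP_f569db_ag.FiveAndSurfacesTimesVarieties
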