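import Pool.Agent.Y104.FinA

/-!
# The conjecture D for all products of varieties without stable isotropic subspaces

Let `W` be a Weil cohomology theory on a class of smooth proper varieties over a field `k` of any
characteristic, and `G` a class of varieties, closed under products, with an action of a group `Γ`
on the cohomology which has the formal properties of a Galois action (the example: varieties over a
subfield `F` of the algebraically closed field `k`, and the Galois group of `F`).

Let `S` be a set of varieties `X` in `G` which satisfy the conjecture D (for example surfaces), for
which the sign operator on the transcendental cohomology `T(X)` (the orthogonal complement of all
algebraic classes) is algebraic (for example, `T(X)` is in degrees of one parity), and such that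
`T(X)` does not contain a subspace different from `0` which is isotropic for the intersection form
and stable under `Γ` and under all algebraic correspondences. This last condition is satisfied if
`T(X)` is irreducible under `Γ`; or if `Γ` acts on `T(X)` through a Frobenius endomorphism with
a squarefree characteristic polynomial, all of whose irreducible factors over the coefficient field
are stable under `α ↦ q ^ w / α`.

Then the conjecture D holds for all products of members of `S` (in particular for all powers of one
`X`), and for all varieties dominated by them. More generally: if `R` is any set of varieties in `G`
such that D holds for all products of members of `R`, then D holds for all products of members of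
`S ∪ R`. No positivity, no other standard conjecture and no form of the Tate conjecture is assumed,
and there is no bound on the number of factors.

The proof: the numerically trivial algebraic classes on products of the `X` give multilinear
forms on the spaces `T(X)`, all of whose full contractions (also of several of them, with any
repetitions) with the forms dual to the intersection forms vanish, because the transcendental part
of the diagonal is algebraic. So these tensors are unstable for the group of the isometries of the
`T(X)` (Hilbert-Mumford over a valuation ring, with a proof by the apolar pairing instead of
invariant theory). As in the theory of Kempf there is an optimal weighted flag, unique and hence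
defined over the coefficient field and stable under `Γ`; by a version of the theory for the
operators given by correspondences it can be chosen stable under them. If there were tensors other
than `0` the flag would not be trivial and would contain a stable isotropic subspace. So the
numerically trivial classes are orthogonal to everything, hence zero.
-/

universe u v w

namespace Pool.Agent.Results.MP_f569db_ag.StableIsotropic

open Pool.Agent.H914 Pool.Agent.TH125.Gal Pool.Agent.Y104.Geo

/-- **The conjecture D for products of varieties without stable isotropic subspaces.** -/
theorem result {k : Type u} [Field k] {𝒱 : VarClass k} {ops : CycleOps 𝒱}
    (W : WeilCohomology.{u, v} ops) {Γ : Type w} [Group Γ] (χ : Γ →* W.Kˣ) (G : Set (GVar W Γ))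
    (hG : GaloisClass χ G) (S R : Set (GVar W Γ)) (hSG : S ⊆ G) (hRG : R ⊆ G)
    (hS : ∀ X ∈ S, HomEqNum W X.X ∧ SignAlgebraic W X.X ∧ NoStableIsotropic X)
    (hR : ∀ Y, IsProductOf (GVar.X '' R) Y → HomEqNum W Y) (Y : 𝒱.Obj)
    (hY : IsProductOf (GVar.X '' (S ∪ R)) Y) :
    HomEqNum W Y ∧ ∀ Y', Dominates W Y Y' → HomEqNum W Y' :=
  have h := homEqNum_trans hG hSG hRG hS hR hY
  ⟨h, fun _ hd => h.image hd⟩

end Pool.Agent.Results.MP_f569db_ag.StableIsotropic
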